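import Mathlib
set_option autoImplicit false
namespace Pool.Agent.Results.MP_a21721_al.Yes
open scoped commutatorElement

@[ext] structure H where
  m : (ZMod 7)ˣ
  n : (ZMod 7)ˣ
  s : ZMod 7
  p : ZMod 7
  q : ZMod 7
  r : ZMod 7
  deriving DecidableEq

instance : Mul H := ⟨fun g h => ⟨g.m * h.m, g.n * h.n, g.s + g.m * h.s, g.p + g.n * h.p,
  g.q + g.m * g.n * h.q + g.s * g.n * h.p,
  g.r + g.m * g.m * g.n * h.r + 2 * g.s * g.m * g.n * h.q + g.s * g.s * g.n * h.p⟩⟩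
instance : One H := ⟨⟨1, 1, 0, 0, 0, 0⟩⟩
instance : Inv H := ⟨fun g => ⟨g.m⁻¹, g.n⁻¹, -(↑g.m⁻¹ * g.s), -(↑g.n⁻¹ * g.p),
  ↑g.m⁻¹ * ↑g.n⁻¹ * (g.s * g.p - g.q),
  ↑g.m⁻¹ * ↑g.m⁻¹ * ↑g.n⁻¹ * (2 * g.s * g.q - g.s * g.s * g.p - g.r)⟩⟩

lemma mul_def (g h : H) : g * h = ⟨g.m * h.m, g.n * h.n, g.s + g.m * h.s, g.p + g.n * h.p,
  g.q + g.m * g.n * h.q + g.s * g.n * h.p,
  g.r + g.m * g.m * g.n * h.r + 2 * g.s * g.m * g.n * h.q + g.s * g.s * g.n * h.p⟩ := rfl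
lemma one_def : (1 : H) = ⟨1, 1, 0, 0, 0, 0⟩ := rfl
lemma inv_def (g : H) : g⁻¹ = ⟨g.m⁻¹, g.n⁻¹, -(↑g.m⁻¹ * g.s), -(↑g.n⁻¹ * g.p),
  ↑g.m⁻¹ * ↑g.n⁻¹ * (g.s * g.p - g.q),
  ↑g.m⁻¹ * ↑g.m⁻¹ * ↑g.n⁻¹ * (2 * g.s * g.q - g.s * g.s * g.p - g.r)⟩ := rfl

instance : Group H := Group.ofLeftAxioms
  (fun a b c => by
    simp only [mul_def, H.mk.injEq, Units.val_mul]
    refine ⟨mul_assoc _ _ _, mul_assoc _ _ _, ?_, ?_, ?_, ?_⟩ <;> ring)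
  (fun a => by simp [mul_def, one_def])
  (fun a => by
    simp only [mul_def, one_def, inv_def, H.mk.injEq]
    refine ⟨inv_mul_cancel _, inv_mul_cancel _, ?_, ?_, ?_, ?_⟩ <;> ring)

def A1 : Subgroup H where
  carrier := {g | g.m = 1 ∧ g.n = 1}
  mul_mem' := fun ha hb => by simp [mul_def, ha.1, ha.2, hb.1, hb.2]
  one_mem' := ⟨rfl, rfl⟩
  inv_mem' := fun ha => by simp [inv_def, ha.1, ha.2]

def A2 : Subgroup H where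
  carrier := {g | g.m = 1 ∧ g.n = 1 ∧ g.s = 0}
  mul_mem' := fun ha hb => by simp [mul_def, ha.1, ha.2.1, hb.1, hb.2.1, ha.2.2, hb.2.2]
  one_mem' := ⟨rfl, rfl, rfl⟩
  inv_mem' := fun ha => by simp [inv_def, ha.1, ha.2.1, ha.2.2]

lemma solv : IsSolvable H := by
  have h1 : derivedSeries H 1 ≤ A1 := Subgroup.commutator_le.2 fun g _ h _ => by
    show (g * h * g⁻¹ * h⁻¹).m = 1 ∧ (g * h * g⁻¹ * h⁻¹).n = 1
    simp [mul_def, inv_def]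
  have h2 : ⁅A1, A1⁆ ≤ A2 := Subgroup.commutator_le.2 fun g hg h hh => by
    show (g * h * g⁻¹ * h⁻¹).m = 1 ∧ (g * h * g⁻¹ * h⁻¹).n = 1 ∧ (g * h * g⁻¹ * h⁻¹).s = 0
    simp [mul_def, inv_def, hg.1, hg.2, hh.1, hh.2]
  have h3 : ⁅A2, A2⁆ ≤ ⊥ := Subgroup.commutator_le.2 fun g hg h hh => by
    show g * h * g⁻¹ * h⁻¹ = 1
    simp [mul_def, inv_def, one_def, hg.1, hg.2.1, hh.1, hh.2.1, hg.2.2, hh.2.2]
  have h4 : derivedSeries H 2 ≤ A2 := (Subgroup.commutator_mono h1 h1).trans h2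
  exact ⟨3, le_bot_iff.1 ((Subgroup.commutator_mono h4 h4).trans h3)⟩

def u3 : (ZMod 7)ˣ := ⟨3, 5, by decide, by decide⟩

theorem result : ∃ (K : Type) (_ : Group K) (a c h : K), IsSolvable K ∧ orderOf c = 7 ∧
    orderOf a = 6 ∧ a⁻¹ * c * a = c ^ 5 ∧
    h * (a⁻¹ * h⁻¹ * a) * ((a ^ 2)⁻¹ * h * a ^ 2) = c := by
  refine ⟨H, inferInstance, ⟨u3, u3⁻¹, 0, 0, 0, 0⟩, ⟨1, 1, 0, 0, 0, 1⟩, ⟨1, 1, 1, 3, 2, 0⟩, solv,
    ?_, ?_, by decide +kernel, by decide +kernel⟩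
  · rw [orderOf_eq_iff (by norm_num)]
    decide +kernel
  · rw [orderOf_eq_iff (by norm_num)]
    decide +kernel

end Pool.Agent.Results.MP_a21721_al.Yes
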